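import Pool.Agent.Lib_MP_30cc74_lb.Fam

/-!
# A graph with `N ^ 8` vertices and at most `14 N ^ 3 + 3 N ^ 2 + 4 N` nonpositive eigenvalues

Vertices: `(x₀, x₁, x₂, x₃, (p, q), (p', q'))` with `x₀, ..., x₃` in a set of size `N` and
`p, q, p', q'` in a commutative group of order `N`.  With the equality functions `e₀, ..., e₃` of
`x₀, ..., x₃`, the equality functions `f₀, f₁, f₂` of `p`, `q`, `p + q`, the equality functions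
`g₀, g₁, g₂` of `p'`, `q'`, `p' + q'`, and `t = f₀ f₁`, `s = g₀ g₁` the adjacency function is
`(1 - e₀)(1 - e₁)(1 - e₂)(1 - e₃) - t - s - f₂ g₂ + f₂ s + t g₂`
`+ e₀ (f₀ + g₂ - f₀ g₂) + e₁ (f₂ + g₀ - f₂ g₀) + e₂ (f₂ + g₁ - f₂ g₁) + e₃ (f₁ + g₂ - f₁ g₂)`
`- e₀ e₁ f₀ - e₁ e₂ f₂ - e₂ e₃ f₁ - e₀ e₂ g₁ - e₀ e₃ g₂ - e₁ e₃ g₀ + e₁ e₂ t + e₀ e₃ s`
`+ e₀ e₁ e₂ e₃ t s`.
-/

set_option autoImplicit false

namespace Pool.Agent.NPOLB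

open Finset

/-- the polynomial -/
def eightPoly (e₀ e₁ e₂ e₃ f₀ f₁ f₂ g₀ g₁ g₂ : ℝ) : ℝ :=
  (1 - e₀) * (1 - e₁) * (1 - e₂) * (1 - e₃) - f₀ * f₁ - g₀ * g₁ - f₂ * g₂ + f₂ * (g₀ * g₁) +
    f₀ * f₁ * g₂ + e₀ * (f₀ + g₂ - f₀ * g₂) + e₁ * (f₂ + g₀ - f₂ * g₀) +
    e₂ * (f₂ + g₁ - f₂ * g₁) + e₃ * (f₁ + g₂ - f₁ * g₂) - e₀ * e₁ * f₀ - e₁ * e₂ * f₂ -
    e₂ * e₃ * f₁ - e₀ * e₂ * g₁ - e₀ * e₃ * g₂ - e₁ * e₃ * g₀ + e₁ * e₂ * (f₀ * f₁) +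
    e₀ * e₃ * (g₀ * g₁) + e₀ * e₁ * e₂ * e₃ * (f₀ * f₁ * (g₀ * g₁))

/-- the value on the diagonal -/
theorem eightPoly_one : eightPoly 1 1 1 1 1 1 1 1 1 1 = 0 := by
  unfold eightPoly
  norm_num

/-- the states of a line -/
def Line (f₀ f₁ f₂ : ℝ) : Prop :=
  (f₀ = 1 ∧ f₁ = 1 ∧ f₂ = 1) ∨ (f₀ = 1 ∧ f₁ = 0 ∧ f₂ = 0) ∨ (f₀ = 0 ∧ f₁ = 1 ∧ f₂ = 0) ∨
    (f₀ = 0 ∧ f₁ = 0 ∧ f₂ = 1) ∨ (f₀ = 0 ∧ f₁ = 0 ∧ f₂ = 0)

theorem eightPoly_bool {e₀ e₁ e₂ e₃ f₀ f₁ f₂ g₀ g₁ g₂ : ℝ} (h₀ : e₀ = 0 ∨ e₀ = 1)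
    (h₁ : e₁ = 0 ∨ e₁ = 1) (h₂ : e₂ = 0 ∨ e₂ = 1) (h₃ : e₃ = 0 ∨ e₃ = 1) (hf : Line f₀ f₁ f₂)
    (hg : Line g₀ g₁ g₂) :
    eightPoly e₀ e₁ e₂ e₃ f₀ f₁ f₂ g₀ g₁ g₂ = 0 ∨
      eightPoly e₀ e₁ e₂ e₃ f₀ f₁ f₂ g₀ g₁ g₂ = 1 := by
  unfold eightPoly
  rcases h₀ with rfl | rfl <;> rcases h₁ with rfl | rfl <;> rcases h₂ with rfl | rfl <;>
  rcases h₃ with rfl | rfl <;>
  rcases hf with ⟨rfl, rfl, rfl⟩ | ⟨rfl, rfl, rfl⟩ | ⟨rfl, rfl, rfl⟩ | ⟨rfl, rfl, rfl⟩ |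
    ⟨rfl, rfl, rfl⟩ <;>
  rcases hg with ⟨rfl, rfl, rfl⟩ | ⟨rfl, rfl, rfl⟩ | ⟨rfl, rfl, rfl⟩ | ⟨rfl, rfl, rfl⟩ |
    ⟨rfl, rfl, rfl⟩ <;> norm_num

variable {A P : Type} [Fintype A] [DecidableEq A] [Fintype P] [DecidableEq P] [AddCommGroup P]

omit [Fintype P] in
theorem line_del (p q p' q' : P) : Line (del p p') (del q q') (del (p + q) (p' + q')) := by
  rcases del_cases p p' with ⟨h1, h1'⟩ | ⟨h1, h1'⟩ <;>
  rcases del_cases q q' with ⟨h2, h2'⟩ | ⟨h2, h2'⟩ <;>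
  rcases del_cases (p + q) (p' + q') with ⟨h3, h3'⟩ | ⟨h3, h3'⟩
  · exact Or.inl ⟨h1', h2', h3'⟩
  · exact absurd (by rw [h1, h2]) h3
  · rw [h1] at h3
    exact absurd (add_left_cancel h3) h2
  · exact Or.inr (Or.inl ⟨h1', h2', h3'⟩)
  · rw [h2] at h3
    exact absurd (add_right_cancel h3) h1
  · exact Or.inr (Or.inr (Or.inl ⟨h1', h2', h3'⟩))
  · exact Or.inr (Or.inr (Or.inr (Or.inl ⟨h1', h2', h3'⟩)))
  · exact Or.inr (Or.inr (Or.inr (Or.inr ⟨h1', h2', h3'⟩)))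

/-- the vertices -/
abbrev EV (A P : Type) : Type := (A × A × A × A) × (P × P) × (P × P)

/-- the adjacency function -/
def eightKer (x y : EV A P) : ℝ :=
  eightPoly (del x.1.1 y.1.1) (del x.1.2.1 y.1.2.1) (del x.1.2.2.1 y.1.2.2.1)
    (del x.1.2.2.2 y.1.2.2.2) (del x.2.1.1 y.2.1.1) (del x.2.1.2 y.2.1.2)
    (del (x.2.1.1 + x.2.1.2) (y.2.1.1 + y.2.1.2)) (del x.2.2.1 y.2.2.1) (del x.2.2.2 y.2.2.2)
    (del (x.2.2.1 + x.2.2.2) (y.2.2.1 + y.2.2.2))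

theorem sys_eight :
    Sys (eightKer : EV A P → EV A P → ℝ)
      (4 * Fintype.card A + 4 * Fintype.card A ^ 3 + 3 * Fintype.card P ^ 2 +
        4 * Fintype.card A * Fintype.card P ^ 2 + 6 * Fintype.card A ^ 2 * Fintype.card P) := by
  have hbool : ∀ {Ω : Type} [DecidableEq Ω] (x y : Ω), del x y = 0 ∨ del x y = 1 := by
    intro Ω _ x y
    rcases del_cases x y with ⟨_, h⟩ | ⟨_, h⟩
    · exact Or.inr h
    · exact Or.inl h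
  refine ⟨fun x y => ?_, fun x y => ?_, fun x => ?_, ?_⟩
  · unfold eightKer
    rw [del_comm x.1.1, del_comm x.1.2.1, del_comm x.1.2.2.1, del_comm x.1.2.2.2,
      del_comm x.2.1.1, del_comm x.2.1.2, del_comm (x.2.1.1 + x.2.1.2), del_comm x.2.2.1,
      del_comm x.2.2.2, del_comm (x.2.2.1 + x.2.2.2)]
  · exact eightPoly_bool (hbool _ _) (hbool _ _) (hbool _ _) (hbool _ _) (line_del _ _ _ _)
      (line_del _ _ _ _)
  · unfold eightKer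
    simp only [del_self]
    exact eightPoly_one
  · let a₀ : EV A P → A := fun x => x.1.1
    let a₁ : EV A P → A := fun x => x.1.2.1
    let a₂ : EV A P → A := fun x => x.1.2.2.1
    let a₃ : EV A P → A := fun x => x.1.2.2.2
    let p₀ : EV A P → P := fun x => x.2.1.1
    let p₁ : EV A P → P := fun x => x.2.1.2
    let p₂ : EV A P → P := fun x => x.2.1.1 + x.2.1.2
    let q₀ : EV A P → P := fun x => x.2.2.1
    let q₁ : EV A P → P := fun x => x.2.2.2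
    let q₂ : EV A P → P := fun x => x.2.2.1 + x.2.2.2
    have E₀ := (gram_del (Ω := A)).comp a₀
    have E₁ := (gram_del (Ω := A)).comp a₁
    have E₂ := (gram_del (Ω := A)).comp a₂
    have E₃ := (gram_del (Ω := A)).comp a₃
    have F₀ := (gram_del (Ω := P)).comp p₀
    have F₁ := (gram_del (Ω := P)).comp p₁
    have F₂ := (gram_del (Ω := P)).comp p₂
    have G₀ := (gram_del (Ω := P)).comp q₀
    have G₁ := (gram_del (Ω := P)).comp q₁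
    have G₂ := (gram_del (Ω := P)).comp q₂
    -- the negative terms
    have M₁ := ((E₀.add E₁).add E₂).add E₃
    have M₂ := ((((E₀.mul E₁).mul E₂).add ((E₀.mul E₁).mul E₃)).add ((E₀.mul E₂).mul E₃)).add
      ((E₁.mul E₂).mul E₃)
    have M₃ := ((F₀.mul F₁).add (G₀.mul G₁)).add (F₂.mul G₂)
    have M₄ := (((E₀.mul (F₀.mul G₂)).add (E₁.mul (F₂.mul G₀))).add (E₂.mul (F₂.mul G₁))).add
      (E₃.mul (F₁.mul G₂))
    have M₅ := (((((((E₀.mul E₁).mul F₀).add ((E₁.mul E₂).mul F₂)).add ((E₂.mul E₃).mul F₁)).add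
      ((E₀.mul E₂).mul G₁)).add ((E₀.mul E₃).mul G₂)).add ((E₁.mul E₃).mul G₀))
    have hM := (((M₁.add M₂).add M₃).add M₄).add M₅
    -- the positive terms
    have L₁ := (Gram.one (Ω := EV A P)).add ((((((E₀.mul E₁).add (E₀.mul E₂)).add
      (E₀.mul E₃)).add (E₁.mul E₂)).add (E₁.mul E₃)).add (E₂.mul E₃))
    have L₂ := (((E₀.mul E₁).mul E₂).mul E₃).add ((F₂.mul (G₀.mul G₁)).add
      ((F₀.mul F₁).mul G₂))
    have L₃ := ((((E₀.mul F₀).add (E₁.mul F₂)).add (E₂.mul F₂)).add (E₃.mul F₁)).add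
      ((((E₀.mul G₂).add (E₁.mul G₀)).add (E₂.mul G₁)).add (E₃.mul G₂))
    have L₄ := ((E₁.mul E₂).mul (F₀.mul F₁)).add ((E₀.mul E₃).mul (G₀.mul G₁))
    have hL := ((L₁.add L₂).add L₃).add L₄
    refine ⟨_, _, _, hM.mono ?_, hL, fun x y => ?_⟩
    · apply le_of_eq
      ring
    have hx : (if x = y then (1 : ℝ) else 0) =
        (del x.1.1 y.1.1 * (del x.1.2.1 y.1.2.1 * (del x.1.2.2.1 y.1.2.2.1 *
          del x.1.2.2.2 y.1.2.2.2))) * ((del x.2.1.1 y.2.1.1 * del x.2.1.2 y.2.1.2) *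
          (del x.2.2.1 y.2.2.1 * del x.2.2.2 y.2.2.2)) := by
      have := del_prod x y
      rw [del_prod x.1 y.1, del_prod x.1.2 y.1.2, del_prod x.1.2.2 y.1.2.2, del_prod x.2 y.2,
        del_prod x.2.1 y.2.1, del_prod x.2.2 y.2.2] at this
      exact this
    rw [hx]
    unfold eightKer eightPoly
    simp only [a₀, a₁, a₂, a₃, p₀, p₁, p₂, q₀, q₁, q₂]
    ring

/-- For every `N ≥ 1` there is a graph with `N ^ 8` vertices and at most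
`14 N ^ 3 + 3 N ^ 2 + 4 N` nonpositive eigenvalues. -/
theorem eight_graph (N : ℕ) (hN : 1 ≤ N) : ∃ (Ω : Type) (_ : Fintype Ω)
    (_ : DecidableEq Ω) (u : Ω → Ω → ℝ), Fintype.card Ω = N ^ 8 ∧
      Sys u (14 * N ^ 3 + 3 * N ^ 2 + 4 * N) := by
  have : NeZero N := ⟨by omega⟩
  refine ⟨EV (Fin N) (ZMod N), inferInstance, inferInstance, eightKer, ?_, sys_eight.mono ?_⟩
  · simp only [Fintype.card_prod, Fintype.card_fin, ZMod.card]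
    ring
  · rw [Fintype.card_fin, ZMod.card]
    apply le_of_eq
    ring

end Pool.Agent.NPOLB
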