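import Pool.Agent.Lib_MP_30cc74_lb.Step

/-!
# Families of graphs with `N ^ K` vertices and `O(N ^ D)` nonpositive eigenvalues
-/

set_option autoImplicit false

namespace Pool.Agent.NPOLB

open Finset

/-- graphs with `N ^ K` vertices and at most `C N ^ D` nonpositive eigenvalues, with the
decomposition `u + m = δ + l` -/
def Fam (K D : ℕ) : Prop :=
  ∃ C : ℕ, ∀ N : ℕ, 1 ≤ N → ∃ (Ω : Type) (_ : Fintype Ω) (_ : DecidableEq Ω) (u : Ω → Ω → ℝ),
    Fintype.card Ω = N ^ K ∧ Sys u (C * N ^ D)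

theorem fam_base : Fam 2 1 := by
  refine ⟨2, fun N _ => ⟨Fin N × Fin N, inferInstance, inferInstance,
    fun x y => (1 - del x.1 y.1) * (1 - del x.2 y.2), ?_, ?_⟩⟩
  · rw [Fintype.card_prod, Fintype.card_fin, pow_two]
  · have := sys_rook (Fin N) (Fin N)
    rw [Fintype.card_fin] at this
    refine this.mono ?_
    rw [pow_one]
    omega

theorem Fam.step {K D : ℕ} (h : Fam K D) (hDK : D ≤ K) : Fam (3 * K + D) (K + D) := by
  obtain ⟨C, hC⟩ := h
  refine ⟨3 + 4 * C, fun N hN => ?_⟩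
  obtain ⟨Ω, iF, iD, u, hcard, hu⟩ := hC N hN
  refine ⟨Ω × Ω × Fin (N ^ K) × Fin (N ^ D), inferInstance, inferInstance, _, ?_,
    (Sys.step hu hu (Fin (N ^ K)) (Fin (N ^ D))).mono ?_⟩
  · rw [Fintype.card_prod, Fintype.card_prod, Fintype.card_prod, Fintype.card_fin,
      Fintype.card_fin, hcard, ← pow_add, ← pow_add, ← pow_add]
    congr 1
    ring
  · rw [Fintype.card_fin, Fintype.card_fin, hcard]
    have h1 : N ^ K ≤ N ^ (K + D) := Nat.pow_le_pow_right hN (by omega)
    have h2 : N ^ D * N ^ D ≤ N ^ (K + D) := by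
      rw [← pow_add]
      exact Nat.pow_le_pow_right hN (by omega)
    have h3 : N ^ K * N ^ D = N ^ (K + D) := (pow_add _ _ _).symm
    calc N ^ K + N ^ K + N ^ K * (C * N ^ D) + C * N ^ D * N ^ K + N ^ K * (C * N ^ D) +
          N ^ D * (C * N ^ D) + N ^ K * N ^ D
        = N ^ K + N ^ K + 3 * C * (N ^ K * N ^ D) + C * (N ^ D * N ^ D) + N ^ K * N ^ D := by ring
      _ ≤ N ^ (K + D) + N ^ (K + D) + 3 * C * N ^ (K + D) + C * N ^ (K + D) + N ^ (K + D) := by
          rw [h3]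
          gcongr
      _ = (3 + 4 * C) * N ^ (K + D) := by ring

/-- the exponents -/
def kd : ℕ → ℕ × ℕ
  | 0 => (2, 1)
  | t + 1 => (3 * (kd t).1 + (kd t).2, (kd t).1 + (kd t).2)

theorem kd_le (t : ℕ) : (kd t).2 ≤ (kd t).1 := by
  induction t with
  | zero => decide
  | succ t ih => simp only [kd]; omega

theorem kd_ge (t : ℕ) : t + 1 ≤ (kd t).2 := by
  induction t with
  | zero => decide
  | succ t ih =>
    have := kd_le t
    simp only [kd]; omega

theorem fam_kd (t : ℕ) : Fam (kd t).1 (kd t).2 := by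
  induction t with
  | zero => exact fam_base
  | succ t ih => exact ih.step (kd_le t)

theorem kd_ratio (t : ℕ) : 0 ≤ (1 + Real.sqrt 2) * (kd t).2 - (kd t).1 ∧
    (1 + Real.sqrt 2) * (kd t).2 - (kd t).1 ≤ 1 := by
  have h1 : Real.sqrt 2 * Real.sqrt 2 = 2 := Real.mul_self_sqrt (by norm_num)
  have h2 : 1 ≤ Real.sqrt 2 := by
    rw [show (1 : ℝ) = Real.sqrt 1 by simp]
    exact Real.sqrt_le_sqrt (by norm_num)
  have h3 : Real.sqrt 2 ≤ 2 := by nlinarith
  induction t with
  | zero =>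
    simp only [kd]
    push_cast
    constructor <;> linarith
  | succ t ih =>
    have e : (1 + Real.sqrt 2) * ((kd (t + 1)).2 : ℝ) - ((kd (t + 1)).1 : ℝ) =
        (2 - Real.sqrt 2) * ((1 + Real.sqrt 2) * (kd t).2 - (kd t).1) := by
      simp only [kd]
      push_cast
      linear_combination ((kd t).2 : ℝ) * h1
    rw [e]
    obtain ⟨h4, h5⟩ := ih
    constructor
    · exact mul_nonneg (by linarith) h4
    · nlinarith

/-- The exponents tend to `1 + √2`. -/
theorem exists_kd {α : ℝ} (hα : α < 1 + Real.sqrt 2) :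
    ∃ K D : ℕ, 1 ≤ D ∧ Fam K D ∧ α ≤ (K : ℝ) / D := by
  obtain ⟨t, ht⟩ := exists_nat_gt (1 / (1 + Real.sqrt 2 - α))
  have hpos : 0 < 1 + Real.sqrt 2 - α := by linarith
  have h1 := kd_ge t
  have h2 := (kd_ratio t).2
  have hD : (0 : ℝ) < (kd t).2 := by
    have : 0 < (kd t).2 := by omega
    exact_mod_cast this
  refine ⟨(kd t).1, (kd t).2, by omega, fam_kd t, ?_⟩
  rw [le_div_iff₀ hD]
  have h3 : (t : ℝ) + 1 ≤ (kd t).2 := by exact_mod_cast h1
  rw [div_lt_iff₀ hpos] at ht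
  nlinarith

open scoped Classical in
/-- The graph of a system. -/
theorem exists_graph {n r : ℕ} {Ω : Type} [Fintype Ω] [DecidableEq Ω] {u : Ω → Ω → ℝ}
    (hn : Fintype.card Ω = n) (hu : Sys u r) :
    ∃ G : SimpleGraph (Fin n), Sys (fun x y => G.adjMatrix ℝ x y) r := by
  have e : Fin n ≃ Ω := (Fintype.equivFinOfCardEq hn).symm
  have h := hu.comp e e.injective
  obtain ⟨G, hG⟩ : ∃ G : SimpleGraph (Fin n), ∀ x y, G.Adj x y ↔ u (e x) (e y) = 1 :=
    ⟨{ Adj := fun x y => u (e x) (e y) = 1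
       symm := ⟨fun x y hxy => by
        show u (e y) (e x) = 1
        rw [hu.symm]; exact hxy⟩
       loopless := ⟨fun x hx => by
        have h1 : u (e x) (e x) = 1 := hx
        rw [hu.diag (e x)] at h1
        exact zero_ne_one h1⟩ }, fun _ _ => Iff.rfl⟩
  refine ⟨G, ?_⟩
  have e2 : (fun x y => G.adjMatrix ℝ x y) = fun x y => u (e x) (e y) := by
    funext x y
    rw [SimpleGraph.adjMatrix_apply]
    rcases hu.bool (e x) (e y) with h0 | h0
    · have h2 : ¬ G.Adj x y := by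
        rw [hG, h0]
        exact zero_ne_one
      rw [if_neg h2, h0]
    · have h2 : G.Adj x y := by
        rw [hG]
        exact h0
      rw [if_pos h2, h0]
  rw [e2]
  exact h

end Pool.Agent.NPOLB
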