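import Pool.Agent.Lib_MP_30cc74_lb.Fam

/-!
# A graph with `16 N ^ 5` vertices and at most `15 N ^ 2` nonpositive eigenvalues

Vertices: `(a, b, c, (p, q))` with `a, b, c` in a set of size `n` and `p, q` in a commutative group
of order `m`.  With the equality functions `e₀, e₁, e₂` of `a, b, c`, the equality functions
`f₀, f₁, f₂` of `p`, `q`, `p + q`, and `t = f₀ f₁ = f₀ f₂ = f₁ f₂` the adjacency function is
`e₀ + e₁ + e₂ - e₀ e₁ - e₀ e₂ - e₁ e₂ + e₀ e₁ e₂ + t - e₀ f₀ - e₁ f₁ - e₂ f₂ + e₀ e₁ e₂ t`.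
-/

set_option autoImplicit false

namespace Pool.Agent.NPOLB

open Finset

variable {A B C P : Type} [Fintype A] [DecidableEq A] [Fintype B] [DecidableEq B]
  [Fintype C] [DecidableEq C] [Fintype P] [DecidableEq P] [AddCommGroup P]

/-- the adjacency function -/
def fiveKer (x y : A × B × C × P × P) : ℝ :=
  del x.1 y.1 + del x.2.1 y.2.1 + del x.2.2.1 y.2.2.1 - del x.1 y.1 * del x.2.1 y.2.1 -
    del x.1 y.1 * del x.2.2.1 y.2.2.1 - del x.2.1 y.2.1 * del x.2.2.1 y.2.2.1 +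
    del x.1 y.1 * del x.2.1 y.2.1 * del x.2.2.1 y.2.2.1 +
    del x.2.2.2.1 y.2.2.2.1 * del x.2.2.2.2 y.2.2.2.2 -
    del x.1 y.1 * del x.2.2.2.1 y.2.2.2.1 - del x.2.1 y.2.1 * del x.2.2.2.2 y.2.2.2.2 -
    del x.2.2.1 y.2.2.1 * del (x.2.2.2.1 + x.2.2.2.2) (y.2.2.2.1 + y.2.2.2.2) +
    del x.1 y.1 * del x.2.1 y.2.1 * del x.2.2.1 y.2.2.1 *
      (del x.2.2.2.1 y.2.2.2.1 * del x.2.2.2.2 y.2.2.2.2)

theorem sys_five :
    Sys (fiveKer : A × B × C × P × P → A × B × C × P × P → ℝ)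
      (Fintype.card A * Fintype.card B + Fintype.card A * Fintype.card C +
        Fintype.card B * Fintype.card C + Fintype.card A * Fintype.card P +
        Fintype.card B * Fintype.card P + Fintype.card C * Fintype.card P) := by
  refine ⟨fun x y => ?_, fun x y => ?_, fun x => ?_, ?_⟩
  · unfold fiveKer
    rw [del_comm x.1, del_comm x.2.1, del_comm x.2.2.1, del_comm x.2.2.2.1,
      del_comm x.2.2.2.2, del_comm (x.2.2.2.1 + x.2.2.2.2)]
  · unfold fiveKer
    -- the values of the three classes of lines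
    have hf : ∀ p q p' q' : P,
        (del p p' = 1 ∧ del q q' = 1 ∧ del (p + q) (p' + q') = 1) ∨
        (del p p' = 1 ∧ del q q' = 0 ∧ del (p + q) (p' + q') = 0) ∨
        (del p p' = 0 ∧ del q q' = 1 ∧ del (p + q) (p' + q') = 0) ∨
        (del p p' = 0 ∧ del q q' = 0 ∧ del (p + q) (p' + q') = 1) ∨
        (del p p' = 0 ∧ del q q' = 0 ∧ del (p + q) (p' + q') = 0) := by
      intro p q p' q'
      rcases del_cases p p' with ⟨h1, h1'⟩ | ⟨h1, h1'⟩ <;>
      rcases del_cases q q' with ⟨h2, h2'⟩ | ⟨h2, h2'⟩ <;>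
      rcases del_cases (p + q) (p' + q') with ⟨h3, h3'⟩ | ⟨h3, h3'⟩
      · exact Or.inl ⟨h1', h2', h3'⟩
      · exact absurd (by rw [h1, h2]) h3
      · rw [h1] at h3
        exact absurd (add_left_cancel h3) h2
      · exact Or.inr (Or.inl ⟨h1', h2', h3'⟩)
      · rw [h2] at h3
        exact absurd (add_right_cancel h3) h1
      · exact Or.inr (Or.inr (Or.inl ⟨h1', h2', h3'⟩))
      · exact Or.inr (Or.inr (Or.inr (Or.inl ⟨h1', h2', h3'⟩)))
      · exact Or.inr (Or.inr (Or.inr (Or.inr ⟨h1', h2', h3'⟩)))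
    rcases del_cases x.1 y.1 with ⟨_, h0⟩ | ⟨_, h0⟩ <;>
    rcases del_cases x.2.1 y.2.1 with ⟨_, h1⟩ | ⟨_, h1⟩ <;>
    rcases del_cases x.2.2.1 y.2.2.1 with ⟨_, h2⟩ | ⟨_, h2⟩ <;>
    rcases hf x.2.2.2.1 x.2.2.2.2 y.2.2.2.1 y.2.2.2.2 with
      ⟨h3, h4, h5⟩ | ⟨h3, h4, h5⟩ | ⟨h3, h4, h5⟩ | ⟨h3, h4, h5⟩ | ⟨h3, h4, h5⟩ <;>
    rw [h0, h1, h2, h3, h4, h5] <;> norm_num
  · unfold fiveKer
    simp only [del_self]
    norm_num
  · let a : A × B × C × P × P → A := fun x => x.1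
    let b : A × B × C × P × P → B := fun x => x.2.1
    let c : A × B × C × P × P → C := fun x => x.2.2.1
    let p : A × B × C × P × P → P := fun x => x.2.2.2.1
    let q : A × B × C × P × P → P := fun x => x.2.2.2.2
    let s : A × B × C × P × P → P := fun x => x.2.2.2.1 + x.2.2.2.2
    have E₀ := (gram_del (Ω := A)).comp a
    have E₁ := (gram_del (Ω := B)).comp b
    have E₂ := (gram_del (Ω := C)).comp c
    have F₀ := (gram_del (Ω := P)).comp p
    have F₁ := (gram_del (Ω := P)).comp q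
    have F₂ := (gram_del (Ω := P)).comp s
    have hGM := (((((E₀.mul E₁).add (E₀.mul E₂)).add (E₁.mul E₂)).add (E₀.mul F₀)).add
      (E₁.mul F₁)).add (E₂.mul F₂)
    have hGL := (((E₀.add E₁).add E₂).add ((E₀.mul E₁).mul E₂)).add (F₀.mul F₁)
    refine ⟨_, _, _, hGM, hGL, fun x y => ?_⟩
    have hx : (if x = y then (1 : ℝ) else 0) =
        del x.1 y.1 * (del x.2.1 y.2.1 * (del x.2.2.1 y.2.2.1 *
          (del x.2.2.2.1 y.2.2.2.1 * del x.2.2.2.2 y.2.2.2.2))) := by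
      have := del_prod x y
      rw [del_prod x.2 y.2, del_prod x.2.2 y.2.2, del_prod x.2.2.2 y.2.2.2] at this
      exact this
    rw [hx]
    unfold fiveKer
    simp only [a, b, c, p, q, s]
    ring

/-- For every `N ≥ 1` there is a graph with `16 N ^ 5` vertices and at most `15 N ^ 2` nonpositive
eigenvalues. -/
theorem five_graph (N : ℕ) (hN : 1 ≤ N) : ∃ (Ω : Type) (_ : Fintype Ω)
    (_ : DecidableEq Ω) (u : Ω → Ω → ℝ), Fintype.card Ω = 16 * N ^ 5 ∧ Sys u (15 * N ^ 2) := by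
  have : NeZero (4 * N) := ⟨by omega⟩
  refine ⟨Fin N × Fin N × Fin N × ZMod (4 * N) × ZMod (4 * N), inferInstance, inferInstance,
    fiveKer, ?_, sys_five.mono ?_⟩
  · rw [Fintype.card_prod, Fintype.card_prod, Fintype.card_prod, Fintype.card_prod,
      Fintype.card_fin, ZMod.card]
    ring
  · rw [Fintype.card_fin, ZMod.card]
    ring_nf
    exact le_rfl

end Pool.Agent.NPOLB
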