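import Pool.Agent.Lib_MP_30cc74_co.Spectral

/-!
# Gram kernels with few features

`Gram f r`: the kernel `f` is a sum of at most `r` kernels `φ x * φ y`.
`Sys u r`: the 0/1 kernel `u` (adjacency function of a graph) satisfies `u + m = δ + l` with Gram
kernels `m`, `l`, where `m` has at most `r` features; so `u` has at most `r` nonpositive eigenvalues.
-/

set_option autoImplicit false

namespace Pool.Agent.NPOLB

open Finset

/-- `f` is a Gram kernel with at most `r` features -/
def Gram {Ω : Type} (f : Ω → Ω → ℝ) (r : ℕ) : Prop :=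
  ∃ (R : Type) (_ : Fintype R) (φ : R → Ω → ℝ), Fintype.card R ≤ r ∧
    ∀ x y, f x y = ∑ j, φ j x * φ j y

namespace Gram

variable {Ω Ω' : Type}

theorem mono {f : Ω → Ω → ℝ} {r s : ℕ} (h : Gram f r) (hrs : r ≤ s) : Gram f s := by
  obtain ⟨R, iR, φ, hc, hf⟩ := h
  exact ⟨R, iR, φ, hc.trans hrs, hf⟩

theorem congr {f g : Ω → Ω → ℝ} {r : ℕ} (h : Gram f r) (hfg : ∀ x y, g x y = f x y) :
    Gram g r := by
  obtain ⟨R, iR, φ, hc, hf⟩ := h
  exact ⟨R, iR, φ, hc, fun x y => (hfg x y).trans (hf x y)⟩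

theorem add {f g : Ω → Ω → ℝ} {r s : ℕ} (hf : Gram f r) (hg : Gram g s) :
    Gram (fun x y => f x y + g x y) (r + s) := by
  obtain ⟨R, iR, φ, hc, hf⟩ := hf
  obtain ⟨S, iS, ψ, hd, hg⟩ := hg
  refine ⟨R ⊕ S, inferInstance, Sum.elim φ ψ, ?_, fun x y => ?_⟩
  · rw [Fintype.card_sum]; omega
  · show f x y + g x y = _
    rw [Fintype.sum_sum_type, hf, hg]
    rfl

theorem mul {f g : Ω → Ω → ℝ} {r s : ℕ} (hf : Gram f r) (hg : Gram g s) :
    Gram (fun x y => f x y * g x y) (r * s) := by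
  obtain ⟨R, iR, φ, hc, hf⟩ := hf
  obtain ⟨S, iS, ψ, hd, hg⟩ := hg
  refine ⟨R × S, inferInstance, fun p x => φ p.1 x * ψ p.2 x, ?_, fun x y => ?_⟩
  · rw [Fintype.card_prod]; exact Nat.mul_le_mul hc hd
  · show f x y * g x y = _
    rw [Fintype.sum_prod_type, hf, hg, sum_mul_sum]
    refine sum_congr rfl fun j _ => sum_congr rfl fun k _ => ?_
    ring

theorem comp {f : Ω → Ω → ℝ} {r : ℕ} (hf : Gram f r) (h : Ω' → Ω) :
    Gram (fun x y => f (h x) (h y)) r := by
  obtain ⟨R, iR, φ, hc, hf⟩ := hf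
  exact ⟨R, iR, fun j x => φ j (h x), hc, fun x y => hf _ _⟩

theorem zero : Gram (fun _ _ : Ω => 0) 0 :=
  ⟨Empty, inferInstance, fun _ _ => 0, by simp, fun x y => by simp⟩

theorem one : Gram (fun _ _ : Ω => 1) 1 :=
  ⟨Unit, inferInstance, fun _ _ => 1, by simp, fun x y => by simp⟩

theorem delta [Fintype Ω] [DecidableEq Ω] :
    Gram (fun x y : Ω => if x = y then (1 : ℝ) else 0) (Fintype.card Ω) := by
  refine ⟨Ω, inferInstance, fun j x => if j = x then 1 else 0, le_rfl, fun x y => ?_⟩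
  rw [Finset.sum_eq_single x]
  · simp
  · intro j _ hj
    simp [hj]
  · intro h
    exact absurd (mem_univ x) h

/-- A Gram kernel on a finite set has at most `card Ω` features. -/
theorem square [Fintype Ω] [DecidableEq Ω] {f : Ω → Ω → ℝ} {r : ℕ} (hf : Gram f r) :
    Gram f (Fintype.card Ω) := by
  obtain ⟨R, iR, φ, _, hf⟩ := hf
  have hp : (Matrix.of f).PosSemidef := by
    have : Matrix.of f = (Matrix.of φ).conjTranspose * Matrix.of φ := by
      ext x y
      rw [Matrix.of_apply, hf, Matrix.mul_apply]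
      simp
    rw [this]
    exact Matrix.posSemidef_conjTranspose_mul_self _
  refine ⟨Ω, inferInstance, fun a x => Real.sqrt (hp.1.eigenvalues a) *
    Pool.Agent.NPO.evec hp.1 a x, le_rfl, fun x y => ?_⟩
  have h1 := Pool.Agent.NPO.entry_eq hp.1 x y
  rw [Matrix.of_apply] at h1
  rw [h1]
  refine sum_congr rfl fun a _ => ?_
  have h2 := Real.mul_self_sqrt (hp.eigenvalues_nonneg a)
  calc hp.1.eigenvalues a * Pool.Agent.NPO.evec hp.1 a x * Pool.Agent.NPO.evec hp.1 a y
      = (Real.sqrt (hp.1.eigenvalues a) * Real.sqrt (hp.1.eigenvalues a)) *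
        Pool.Agent.NPO.evec hp.1 a x * Pool.Agent.NPO.evec hp.1 a y := by rw [h2]
    _ = _ := by ring

end Gram

/-- The 0/1 kernel of a graph, with the decomposition `u + m = δ + l`. -/
structure Sys {Ω : Type} [DecidableEq Ω] (u : Ω → Ω → ℝ) (r : ℕ) : Prop where
  symm : ∀ x y, u x y = u y x
  bool : ∀ x y, u x y = 0 ∨ u x y = 1
  diag : ∀ x, u x x = 0
  dec : ∃ (m l : Ω → Ω → ℝ) (s : ℕ), Gram m r ∧ Gram l s ∧
    ∀ x y, u x y + m x y = (if x = y then 1 else 0) + l x y

theorem Sys.mono {Ω : Type} [DecidableEq Ω] {u : Ω → Ω → ℝ} {r s : ℕ} (h : Sys u r)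
    (hrs : r ≤ s) : Sys u s := by
  obtain ⟨m, l, t, hm, hl, hd⟩ := h.dec
  exact ⟨h.symm, h.bool, h.diag, m, l, t, hm.mono hrs, hl, hd⟩

theorem Sys.comp {Ω Ω' : Type} [DecidableEq Ω] [DecidableEq Ω'] {u : Ω → Ω → ℝ} {r : ℕ}
    (h : Sys u r) (e : Ω' → Ω) (he : Function.Injective e) :
    Sys (fun x y => u (e x) (e y)) r := by
  obtain ⟨m, l, t, hm, hl, hd⟩ := h.dec
  refine ⟨fun x y => h.symm _ _, fun x y => h.bool _ _, fun x => h.diag _,
    fun x y => m (e x) (e y), fun x y => l (e x) (e y), t, hm.comp e, hl.comp e, fun x y => ?_⟩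
  have := hd (e x) (e y)
  simp only [he.eq_iff] at this
  exact this

/-- The number of nonpositive eigenvalues of `1 + l - m` is at most the number of features
of `m`. -/
theorem card_nonpos_le {V : Type} [Fintype V] [DecidableEq V] {M : Matrix V V ℝ}
    (hM : M.IsHermitian) {r : ℕ} {m l : V → V → ℝ} {s : ℕ} (hm : Gram m r) (hl : Gram l s)
    (hd : ∀ x y, M x y + m x y = (if x = y then 1 else 0) + l x y) :
    (Finset.univ.filter fun a => hM.eigenvalues a ≤ 0).card ≤ r := by
  classical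
  obtain ⟨R, iR, φ, hc, hm⟩ := hm
  obtain ⟨S, iS, ψ, _, hl⟩ := hl
  refine le_trans ?_ hc
  by_contra hcon
  push Not at hcon
  let I := {a // hM.eigenvalues a ≤ 0}
  -- the vector with given coordinates
  let χ : (I → ℝ) →ₗ[ℝ] (V → ℝ) :=
    LinearMap.pi fun i => ∑ a : I, Pool.Agent.NPO.evec hM a.1 i • LinearMap.proj a
  have hχ : ∀ c i, χ c i = ∑ a : I, Pool.Agent.NPO.evec hM a.1 i * c a := by
    intro c i
    simp [χ]
  let T : (V → ℝ) →ₗ[ℝ] (R → ℝ) := LinearMap.pi fun j => ∑ i, φ j i • LinearMap.proj i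
  have hT : ∀ x j, T x j = ∑ i, φ j i * x i := by
    intro x j
    simp [T]
  have hI : Fintype.card R < Fintype.card I := by
    rw [Fintype.card_subtype]
    exact hcon
  -- a vector in the kernel
  obtain ⟨c, hc0, hc⟩ : ∃ c : I → ℝ, c ≠ 0 ∧ T (χ c) = 0 := by
    have hker : LinearMap.ker (T ∘ₗ χ) ≠ ⊥ := by
      apply LinearMap.ker_ne_bot_of_finrank_lt
      rw [Module.finrank_fintype_fun_eq_card, Module.finrank_fintype_fun_eq_card]
      exact hI
    obtain ⟨c, hc1, hc2⟩ := (Submodule.ne_bot_iff _).1 hker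
    exact ⟨c, hc2, hc1⟩
  have hco : ∀ b, ∑ i, Pool.Agent.NPO.evec hM b i * χ c i =
      if h : hM.eigenvalues b ≤ 0 then c ⟨b, h⟩ else 0 := by
    intro b
    simp only [hχ]
    have : ∀ i, Pool.Agent.NPO.evec hM b i * ∑ a : I, Pool.Agent.NPO.evec hM a.1 i * c a =
        ∑ a : I, (Pool.Agent.NPO.evec hM b i * Pool.Agent.NPO.evec hM a.1 i) * c a := by
      intro i
      rw [Finset.mul_sum]
      refine Finset.sum_congr rfl fun a _ => by ring
    rw [Finset.sum_congr rfl fun i _ => this i, Finset.sum_comm]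
    simp only [← Finset.sum_mul, Pool.Agent.NPO.evec_orth]
    by_cases h : hM.eigenvalues b ≤ 0
    · rw [dif_pos h, Finset.sum_eq_single ⟨b, h⟩]
      · simp
      · intro a _ ha
        have : b ≠ a.1 := fun hb => ha (Subtype.ext hb.symm)
        rw [if_neg this, zero_mul]
      · intro h'
        exact absurd (Finset.mem_univ _) h'
    · rw [dif_neg h]
      refine Finset.sum_eq_zero fun a _ => ?_
      have : b ≠ a.1 := fun hb => h (hb ▸ a.2)
      rw [if_neg this, zero_mul]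
  -- the form is nonpositive
  have hform : ∑ i, ∑ j, M i j * χ c i * χ c j ≤ 0 := by
    rw [Pool.Agent.NPO.form_eq hM]
    refine Finset.sum_nonpos fun b _ => ?_
    rw [hco b]
    split_ifs with h
    · exact mul_nonpos_of_nonpos_of_nonneg h (sq_nonneg _)
    · simp
  -- and positive
  have hx0 : χ c ≠ 0 := by
    intro h0
    apply hc0
    funext a
    have := hco a.1
    rw [dif_pos a.2, h0] at this
    simp only [Pi.zero_apply, mul_zero, Finset.sum_const_zero] at this
    exact this.symm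
  have hG : ∀ {Q : Type} [Fintype Q] (θ : Q → V → ℝ) (x : V → ℝ),
      ∑ i, ∑ j, (∑ k, θ k i * θ k j) * x i * x j = ∑ k, (∑ i, θ k i * x i) ^ 2 := by
    intro Q _ θ x
    have h1 : ∀ i j, (∑ k, θ k i * θ k j) * x i * x j = ∑ k, (θ k i * x i) * (θ k j * x j) := by
      intro i j
      rw [Finset.sum_mul, Finset.sum_mul]
      refine Finset.sum_congr rfl fun k _ => by ring
    simp only [h1]
    rw [Finset.sum_congr rfl fun i _ => Finset.sum_comm, Finset.sum_comm]
    refine Finset.sum_congr rfl fun k _ => ?_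
    rw [pow_two, Finset.sum_mul_sum]
  have hpos : 0 < ∑ i, ∑ j, M i j * χ c i * χ c j := by
    have e : ∀ i j, M i j * χ c i * χ c j = (if i = j then χ c i * χ c j else 0) +
        (∑ k, ψ k i * ψ k j) * χ c i * χ c j - (∑ k, φ k i * φ k j) * χ c i * χ c j := by
      intro i j
      have h1 := hd i j
      rw [hm, hl] at h1
      have h2 : M i j = (if i = j then 1 else 0) + (∑ k, ψ k i * ψ k j) -
          ∑ k, φ k i * φ k j := by linarith
      rw [h2]
      split_ifs <;> ring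
    simp only [e, Finset.sum_add_distrib, Finset.sum_sub_distrib]
    rw [hG ψ, hG φ]
    have h3 : ∑ k, (∑ i, φ k i * χ c i) ^ 2 = 0 := by
      refine Finset.sum_eq_zero fun k _ => ?_
      have := congrFun hc k
      rw [hT] at this
      rw [this]
      simp
    rw [h3]
    have h4 : ∑ i, ∑ j, (if i = j then χ c i * χ c j else 0) = ∑ i, χ c i ^ 2 := by
      refine Finset.sum_congr rfl fun i _ => ?_
      rw [Finset.sum_ite_eq Finset.univ i]
      simp [pow_two]
    rw [h4]
    have h5 : 0 ≤ ∑ k, (∑ i, ψ k i * χ c i) ^ 2 := Finset.sum_nonneg fun _ _ => sq_nonneg _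
    have h6 : 0 < ∑ i, χ c i ^ 2 := by
      obtain ⟨i, hi⟩ := Function.ne_iff.1 hx0
      exact Finset.sum_pos' (fun _ _ => sq_nonneg _) ⟨i, Finset.mem_univ _, by
        have : χ c i ≠ 0 := hi
        positivity⟩
    linarith
  linarith

end Pool.Agent.NPOLB
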