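import Pool.Agent.Lib_MP_30cc74_lb.Gram

/-!
# The recursion

`F = (1 - u)(1 - w) + z₀ u + z₁ w - z₀ z₁ - e e' (1 - z₀ z₁)`.
-/

set_option autoImplicit false

namespace Pool.Agent.NPOLB

open Finset

/-- the kernel of equality -/
def del {Ω : Type} [DecidableEq Ω] (x y : Ω) : ℝ := if x = y then 1 else 0

theorem del_self {Ω : Type} [DecidableEq Ω] (x : Ω) : del x x = 1 := if_pos rfl

theorem del_comm {Ω : Type} [DecidableEq Ω] (x y : Ω) : del x y = del y x := by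
  unfold del
  by_cases h : x = y
  · rw [h]
  · rw [if_neg h, if_neg (fun h' => h h'.symm)]

theorem del_cases {Ω : Type} [DecidableEq Ω] (x y : Ω) :
    (x = y ∧ del x y = 1) ∨ (x ≠ y ∧ del x y = 0) := by
  by_cases h : x = y
  · exact Or.inl ⟨h, if_pos h⟩
  · exact Or.inr ⟨h, if_neg h⟩

theorem del_prod {Ω Ω' : Type} [DecidableEq Ω] [DecidableEq Ω'] (x y : Ω × Ω') :
    del x y = del x.1 y.1 * del x.2 y.2 := by
  unfold del
  by_cases h1 : x.1 = y.1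
  · by_cases h2 : x.2 = y.2
    · rw [if_pos (Prod.ext h1 h2), if_pos h1, if_pos h2, mul_one]
    · rw [if_neg (fun h => h2 (by rw [h])), if_neg h2, mul_zero]
  · rw [if_neg (fun h => h1 (by rw [h])), if_neg h1, zero_mul]

theorem gram_del {Ω : Type} [Fintype Ω] [DecidableEq Ω] :
    Gram (del : Ω → Ω → ℝ) (Fintype.card Ω) := Gram.delta

/-- The complement of the rook's graph. -/
theorem sys_rook (X Y : Type) [Fintype X] [DecidableEq X] [Fintype Y] [DecidableEq Y] :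
    Sys (fun x y : X × Y => (1 - del x.1 y.1) * (1 - del x.2 y.2))
      (Fintype.card X + Fintype.card Y) := by
  refine ⟨fun x y => by rw [del_comm x.1, del_comm x.2], fun x y => ?_, fun x => ?_, ?_⟩
  · rcases del_cases x.1 y.1 with ⟨_, h⟩ | ⟨_, h⟩ <;>
    rcases del_cases x.2 y.2 with ⟨_, h'⟩ | ⟨_, h'⟩ <;> rw [h, h'] <;> norm_num
  · rw [del_self, sub_self, zero_mul]
  · refine ⟨fun x y => del x.1 y.1 + del x.2 y.2, fun _ _ => 1, 1,
      (gram_del.comp Prod.fst).add (gram_del.comp Prod.snd), Gram.one, fun x y => ?_⟩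
    have : (if x = y then (1 : ℝ) else 0) = del x.1 y.1 * del x.2 y.2 := del_prod x y
    rw [this]
    ring

/-- The step of the recursion. -/
theorem Sys.step {Ω₁ Ω₂ : Type} [Fintype Ω₁] [DecidableEq Ω₁] [Fintype Ω₂] [DecidableEq Ω₂]
    {u : Ω₁ → Ω₁ → ℝ} {w : Ω₂ → Ω₂ → ℝ} {r₁ r₂ : ℕ} (hu : Sys u r₁) (hw : Sys w r₂)
    (Z₀ Z₁ : Type) [Fintype Z₀] [DecidableEq Z₀] [Fintype Z₁] [DecidableEq Z₁] :
    Sys (fun x y : Ω₁ × Ω₂ × Z₀ × Z₁ =>
      (1 - u x.1 y.1) * (1 - w x.2.1 y.2.1) + del x.2.2.1 y.2.2.1 * u x.1 y.1 +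
        del x.2.2.2 y.2.2.2 * w x.2.1 y.2.1 - del x.2.2.1 y.2.2.1 * del x.2.2.2 y.2.2.2 -
        del x.1 y.1 * del x.2.1 y.2.1 * (1 - del x.2.2.1 y.2.2.1 * del x.2.2.2 y.2.2.2))
      (Fintype.card Ω₁ + Fintype.card Ω₂ + Fintype.card Ω₁ * r₂ + r₁ * Fintype.card Ω₂ +
        Fintype.card Z₀ * r₁ + Fintype.card Z₁ * r₂ + Fintype.card Z₀ * Fintype.card Z₁) := by
  obtain ⟨m₁, l₁, s₁, hm₁, hl₁, hd₁⟩ := hu.dec
  obtain ⟨m₂, l₂, s₂, hm₂, hl₂, hd₂⟩ := hw.dec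
  refine ⟨fun x y => ?_, fun x y => ?_, fun x => ?_, ?_⟩
  · rw [hu.symm x.1, hw.symm x.2.1, del_comm x.1, del_comm x.2.1, del_comm x.2.2.1,
      del_comm x.2.2.2]
  · rcases del_cases x.1 y.1 with ⟨e1, h1⟩ | ⟨_, h1⟩
    · have hu0 : u x.1 y.1 = 0 := by rw [e1]; exact hu.diag _
      rcases del_cases x.2.1 y.2.1 with ⟨e2, h2⟩ | ⟨_, h2⟩
      · have hw0 : w x.2.1 y.2.1 = 0 := by rw [e2]; exact hw.diag _
        rcases del_cases x.2.2.1 y.2.2.1 with ⟨_, h3⟩ | ⟨_, h3⟩ <;>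
        rcases del_cases x.2.2.2 y.2.2.2 with ⟨_, h4⟩ | ⟨_, h4⟩ <;>
        rw [h1, h2, h3, h4, hu0, hw0] <;> norm_num
      · rcases hw.bool x.2.1 y.2.1 with hw0 | hw0 <;>
        rcases del_cases x.2.2.1 y.2.2.1 with ⟨_, h3⟩ | ⟨_, h3⟩ <;>
        rcases del_cases x.2.2.2 y.2.2.2 with ⟨_, h4⟩ | ⟨_, h4⟩ <;>
        rw [h1, h2, h3, h4, hu0, hw0] <;> norm_num
    · rcases hu.bool x.1 y.1 with hu0 | hu0 <;>
      rcases hw.bool x.2.1 y.2.1 with hw0 | hw0 <;>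
      rcases del_cases x.2.2.1 y.2.2.1 with ⟨_, h3⟩ | ⟨_, h3⟩ <;>
      rcases del_cases x.2.2.2 y.2.2.2 with ⟨_, h4⟩ | ⟨_, h4⟩ <;>
      rw [h1, h3, h4, hu0, hw0] <;> norm_num
  · rw [hu.diag, hw.diag, del_self, del_self, del_self, del_self]
    norm_num
  · -- the kernels
    have gp₁ : Gram (fun x y : Ω₁ => del x y + l₁ x y) (Fintype.card Ω₁) :=
      (gram_del.add hl₁).square
    have gp₂ : Gram (fun x y : Ω₂ => del x y + l₂ x y) (Fintype.card Ω₂) :=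
      (gram_del.add hl₂).square
    let a : Ω₁ × Ω₂ × Z₀ × Z₁ → Ω₁ := fun x => x.1
    let b : Ω₁ × Ω₂ × Z₀ × Z₁ → Ω₂ := fun x => x.2.1
    let c : Ω₁ × Ω₂ × Z₀ × Z₁ → Z₀ := fun x => x.2.2.1
    let d : Ω₁ × Ω₂ × Z₀ × Z₁ → Z₁ := fun x => x.2.2.2
    have P₁ := gp₁.comp a
    have P₂ := gp₂.comp b
    have M₁ := hm₁.comp a
    have M₂ := hm₂.comp b
    have L₁ := hl₁.comp a
    have L₂ := hl₂.comp b
    have E₁ := (gram_del (Ω := Ω₁)).comp a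
    have E₂ := (gram_del (Ω := Ω₂)).comp b
    have C := (gram_del (Ω := Z₀)).comp c
    have D := (gram_del (Ω := Z₁)).comp d
    have hGM := (((((P₁.add P₂).add (P₁.mul M₂)).add (M₁.mul P₂)).add (C.mul M₁)).add
      (D.mul M₂)).add (C.mul D)
    have hGL := (((((((Gram.one (Ω := Ω₁ × Ω₂ × Z₀ × Z₁)).add M₁).add M₂).add (E₁.mul L₂)).add
      (L₁.mul E₂)).add (L₁.mul L₂)).add (M₁.mul M₂)).add ((C.mul P₁).add (D.mul P₂))
    refine ⟨_, _, _, hGM, hGL, fun x y => ?_⟩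
    have hx : (if x = y then (1 : ℝ) else 0) =
        del x.1 y.1 * (del x.2.1 y.2.1 * (del x.2.2.1 y.2.2.1 * del x.2.2.2 y.2.2.2)) := by
      have := del_prod x y
      rw [del_prod x.2 y.2, del_prod x.2.2 y.2.2] at this
      exact this
    have h1 : u x.1 y.1 = del x.1 y.1 + l₁ x.1 y.1 - m₁ x.1 y.1 := by
      have := hd₁ x.1 y.1
      have h' : (if x.1 = y.1 then (1 : ℝ) else 0) = del x.1 y.1 := rfl
      rw [h'] at this
      linarith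
    have h2 : w x.2.1 y.2.1 = del x.2.1 y.2.1 + l₂ x.2.1 y.2.1 - m₂ x.2.1 y.2.1 := by
      have := hd₂ x.2.1 y.2.1
      have h' : (if x.2.1 = y.2.1 then (1 : ℝ) else 0) = del x.2.1 y.2.1 := rfl
      rw [h'] at this
      linarith
    rw [hx, h1, h2]
    simp only [a, b, c, d]
    ring

end Pool.Agent.NPOLB
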